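import Pool.Agent.X171.MinSemi

/-!
# Renorming to fail the `(-1)`-ball-covering property at `κ` (Q1: yes)

`result`: let `κ` be an infinite cardinal and let the real normed space `X` have a subspace
linearly homeomorphic to `ℓ_1(I)`, `#I = κ⁺`.  Then `X` has an equivalent norm `N` such that for
every `A ⊆ X` with `#A ≤ κ` there is `x` with `N x = 1` and `N (x - a) ≥ N a + 1` for all `a ∈ A`,
i.e. `(X, N)` fails the `(-1)`-BCP at `κ`.
-/

set_option autoImplicit false

universe u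

namespace Pool.Agent.Results.MP_458f19_an.FailsMinusOneBCP

open Cardinal Order

/-- the norm `N` fails the `(-1)`-ball-covering property at `κ`: no set of cardinality `κ` (or
less) of centres `a` has open `N`-balls of radius `N a + 1` covering the unit sphere -/
def FailsBCP (κ : Cardinal.{u}) {X : Type u} [AddCommGroup X] [Module ℝ X]
    (N : Seminorm ℝ X) : Prop :=
  ∀ A : Set X, #A ≤ κ → ∃ x : X, N x = 1 ∧ ∀ a ∈ A, N a + 1 ≤ N (x - a)

theorem result (κ : Cardinal.{u}) (hκ : ℵ₀ ≤ κ) (X : Type u) [NormedAddCommGroup X]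
    [NormedSpace ℝ X] (I : Type u) (hI : #I = succ κ) (Z : Submodule ℝ X)
    (T : lp (fun _ : I => ℝ) 1 ≃L[ℝ] Z) :
    ∃ N : Seminorm ℝ X,
      (∃ b B : ℝ, 0 < b ∧ 0 < B ∧ ∀ x, b * ‖x‖ ≤ N x ∧ N x ≤ B * ‖x‖) ∧ FailsBCP κ N := by
  obtain ⟨N, hN, e, he, hD⟩ := Pool.Agent.X171.MinSemi.renorming Z T
  refine ⟨N, hN, fun A hA => ?_⟩
  choose D hDc hDe using hD
  have h1 : #(⋃ a : A, D a : Set I) ≤ κ := by
    refine (mk_iUnion_le _).trans ?_
    refine (mul_le_mul' hA ?_).trans (mul_eq_self hκ).le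
    refine (ciSup_le' fun x => ?_ : _ ≤ ℵ₀).trans hκ
    exact (hDc _).le_aleph0
  obtain ⟨i, hi⟩ : ∃ i, i ∉ (⋃ a : A, D a : Set I) := by
    by_contra h
    push Not at h
    have h2 : (⋃ a : A, D a : Set I) = Set.univ := Set.eq_univ_of_forall h
    rw [h2, mk_univ, hI] at h1
    exact (lt_succ κ).not_ge h1
  refine ⟨e i, he i, fun a ha => ?_⟩
  have h3 : i ∉ D a := fun h => hi (Set.mem_iUnion.2 ⟨⟨a, ha⟩, h⟩)
  have h4 := hDe a i h3 (-1)
  rw [abs_neg, abs_one, neg_one_smul, ← sub_eq_add_neg, map_sub_rev] at h4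
  exact h4.ge

end Pool.Agent.Results.MP_458f19_an.FailsMinusOneBCP
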